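import Mathlib

set_option autoImplicit false

namespace Pool.Agent.Results.MP_7d76f2_co.Counterexample

section
variable {V : Type}

/-- The vertices eventually filled when starting from `S`. -/
inductive Filled (G : SimpleGraph V) (S : Finset V) : V → Prop
  | base {v : V} : v ∈ S → Filled G S v
  | force {u w : V} : Filled G S u → G.Adj u w →
      (∀ x, G.Adj u x → x ≠ w → Filled G S x) → Filled G S w

def IsZeroForcing (G : SimpleGraph V) (S : Finset V) : Prop := ∀ v, Filled G S v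

/-- A fort: nonempty, and no outside vertex has exactly one neighbour in it. -/
def IsFort (G : SimpleGraph V) (F : Finset V) : Prop :=
  F.Nonempty ∧ ∀ v, v ∉ F → ¬ ∃! u, u ∈ F ∧ G.Adj v u

lemma meets {G : SimpleGraph V} {S F : Finset V} (hS : IsZeroForcing G S) (hF : IsFort G F) :
    ∃ v ∈ F, v ∈ S := by
  by_contra h
  have key : ∀ v, Filled G S v → v ∉ F := by
    intro v hv
    induction hv with
    | base hv => exact fun hF' => h ⟨_, hF', hv⟩
    | @force u w _ huw _ ih1 ih2 =>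
      intro hw
      refine hF.2 u ih1 ⟨w, ⟨hw, huw⟩, fun y hy => ?_⟩
      by_contra e
      exact ih2 y hy.2 e hy.1
  obtain ⟨v, hv⟩ := hF.1
  exact key v (hS v) hv
end

def tbl : List ℕ := [322, 65, 3512, 580, 1604, 132, 1435, 100, 69, 24, 84, 4]

def G : SimpleGraph (Fin 12) where
  Adj u v := (tbl.getD u.1 0).testBit v.1 = true
  symm := ⟨by decide +kernel⟩
  loopless := ⟨by decide +kernel⟩

instance : DecidableRel G.Adj := fun u v =>
  inferInstanceAs (Decidable ((tbl.getD u.1 0).testBit v.1 = true))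

def L : List (List (Fin 12)) :=
  [[0, 3, 4, 5, 6], [1, 3, 4, 5, 6, 8], [1, 5, 7, 8], [0, 4, 5, 6, 9], [1, 4, 5, 6, 8, 9],
   [3, 4, 10], [3, 9, 10], [0, 5, 6, 9, 10], [1, 5, 6, 8, 9, 10], [0, 1, 2, 3, 4, 5, 11],
   [0, 2, 5, 6, 11], [1, 2, 5, 6, 11], [0, 1, 2, 3, 4, 7, 11], [0, 2, 6, 7, 11],
   [1, 2, 6, 7, 11], [1, 8, 11], [0, 1, 2, 4, 5, 9, 11], [0, 1, 2, 4, 7, 9, 11],
   [0, 1, 2, 5, 9, 10, 11], [0, 1, 2, 7, 9, 10, 11]]

def PB (m : ℕ) : Bool :=
  m == 0 || ((List.finRange 12).any fun v => !m.testBit v.1 &&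
    (List.finRange 12).any fun u => (tbl.getD v.1 0 &&& m) == 2 ^ u.1) ||
    L.any fun M => M.all fun v => m.testBit v.1

lemma allP : ((List.range 64).all fun a => (List.range 64).all fun b => PB (64 * a + b))
    = true := by decide +kernel

lemma contains {F : Finset (Fin 12)} (hF : IsFort G F) : ∃ M ∈ L, ∀ v ∈ M, v ∈ F := by
  obtain ⟨m, hm, hb⟩ : ∃ m : ℕ, m < 4096 ∧ ∀ v : Fin 12, m.testBit v.1 = true ↔ v ∈ F := by
    refine ⟨Nat.ofBits fun v : Fin 12 => decide (v ∈ F), Nat.ofBits_lt_two_pow _, fun v => ?_⟩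
    rw [Nat.testBit_ofBits_lt _ _ v.2]
    simp
  have h : PB m = true := by
    have := allP
    simp only [List.all_eq_true, List.mem_range] at this
    have h2 := this (m / 64) (by omega) (m % 64) (by omega)
    rwa [Nat.div_add_mod] at h2
  simp only [PB, Bool.or_eq_true, List.any_eq_true, List.all_eq_true, Bool.and_eq_true,
    beq_iff_eq, Bool.not_eq_true'] at h
  rcases h with (h | ⟨v, -, hv, u, -, hu⟩) | ⟨M, hM, h⟩
  · obtain ⟨v, hv⟩ := hF.1
    have := (hb v).2 hv
    simp [h] at this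
  · have k : ∀ w : Fin 12, (w ∈ F ∧ G.Adj v w) ↔ w = u := by
      intro w
      have := congrArg (fun z => Nat.testBit z w.1) hu
      simp only [Nat.testBit_and, Nat.testBit_two_pow] at this
      rw [← hb, and_comm, Fin.ext_iff, eq_comm (a := w.1), ← decide_eq_true_iff (p := u.1 = w.1),
        ← this, Bool.and_eq_true]
      rfl
    refine absurd ⟨u, (k u).2 rfl, fun w hw => (k w).1 hw⟩ (hF.2 v fun hv' => ?_)
    rw [(hb v).2 hv'] at hv
    exact absurd hv (by simp)
  · exact ⟨M, hM, fun v hv => (hb v).1 (h v hv)⟩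

def Q (A B C : List (Fin 12)) : Prop :=
  (∃ v ∈ A, v ∈ B) ∨ (∃ v ∈ A, v ∈ C) ∨ (∃ v ∈ B, v ∈ C)

instance (A B C : List (Fin 12)) : Decidable (Q A B C) := by unfold Q; infer_instance

lemma triple : ∀ A ∈ L, ∀ B ∈ L, ∀ C ∈ L, Q A B C := by decide +kernel

instance (F : Finset (Fin 12)) : Decidable (IsFort G F) := by
  unfold IsFort ExistsUnique; infer_instance

lemma zf : IsZeroForcing G {0, 1, 3} := by
  have st : ∀ (u w : Fin 12) (l : List (Fin 12)), (∀ x ∈ l, Filled G {0, 1, 3} x) → u ∈ l →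
      G.Adj u w → (∀ x, G.Adj u x → x ≠ w → x ∈ l) → ∀ x ∈ w :: l, Filled G {0, 1, 3} x := by
    intro u w l h hu ha hx x hx'
    rcases List.mem_cons.1 hx' with rfl | hx'
    · exact Filled.force (h u hu) ha fun y h1 h2 => h y (hx y h1 h2)
    · exact h x hx'
  have h0 : ∀ x ∈ ([0, 1, 3] : List (Fin 12)), Filled G {0, 1, 3} x :=
    fun x hx => Filled.base (by simpa using hx)
  have h1 := st 1 6 _ h0 (by decide) (by decide +kernel) (by decide +kernel)
  have h2 := st 0 8 _ h1 (by decide) (by decide +kernel) (by decide +kernel)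
  have h3 := st 8 2 _ h2 (by decide) (by decide +kernel) (by decide +kernel)
  have h4 := st 3 9 _ h3 (by decide) (by decide +kernel) (by decide +kernel)
  have h5 := st 9 4 _ h4 (by decide) (by decide +kernel) (by decide +kernel)
  have h6 := st 4 10 _ h5 (by decide) (by decide +kernel) (by decide +kernel)
  have h7 := st 6 7 _ h6 (by decide) (by decide +kernel) (by decide +kernel)
  have h8 := st 7 5 _ h7 (by decide) (by decide +kernel) (by decide +kernel)
  have h9 := st 2 11 _ h8 (by decide) (by decide +kernel) (by decide +kernel)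
  intro v
  exact h9 v (by revert v; decide)

lemma lower (x : Fin 12 → ℝ) (h0 : ∀ v, 0 ≤ x v)
    (h : ∀ F, Minimal (IsFort G) F → 1 ≤ ∑ v ∈ F, x v) : 3 ≤ ∑ v, x v := by
  have h' : ∀ F, IsFort G F → 1 ≤ ∑ v ∈ F, x v := by
    intro F hF
    obtain ⟨F', hle, hm⟩ := exists_minimal_le_of_wellFoundedLT (IsFort G) F hF
    exact (h F' hm).trans (Finset.sum_le_sum_of_subset_of_nonneg hle fun v _ _ => h0 v)
  have a1 := h' {1, 5, 7, 8} (by decide +kernel)
  have a2 := h' {0, 4, 5, 6, 9} (by decide +kernel)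
  have a3 := h' {3, 4, 10} (by decide +kernel)
  have a4 := h' {3, 9, 10} (by decide +kernel)
  have a5 := h' {0, 2, 6, 7, 11} (by decide +kernel)
  have a6 := h' {1, 8, 11} (by decide +kernel)
  simp at a1 a2 a3 a4 a5 a6
  simp only [Fin.sum_univ_succ, Fin.sum_univ_zero]
  simp
  linarith [h0 2]

lemma feas {S : Finset (Fin 12)} (hS : IsZeroForcing G S) (F : Finset (Fin 12))
    (hF : Minimal (IsFort G) F) : (1 : ℝ) ≤ ∑ v ∈ F, if v ∈ S then 1 else 0 := by
  obtain ⟨v, hv, hvS⟩ := meets hS hF.1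
  have := Finset.single_le_sum (f := fun v => if v ∈ S then (1 : ℝ) else 0) (s := F)
    (fun v _ => by split_ifs <;> norm_num) hv
  simpa [hvS] using this

theorem result : ∃ G : SimpleGraph (Fin 12),
    IsLeast {k : ℕ | ∃ S : Finset (Fin 12), IsZeroForcing G S ∧ S.card = k} 3 ∧
    IsLeast {t : ℝ | ∃ x : Fin 12 → ℝ, (∀ v, 0 ≤ x v) ∧
      (∀ F, Minimal (IsFort G) F → 1 ≤ ∑ v ∈ F, x v) ∧ ∑ v, x v = t} 3 ∧
    IsGreatest {k : ℕ | ∃ C : Finset (Finset (Fin 12)), (∀ F ∈ C, IsFort G F) ∧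
      (∀ F ∈ C, ∀ F' ∈ C, F ≠ F' → Disjoint F F') ∧ C.card = k} 2 := by
  refine ⟨G, ⟨⟨_, zf, by decide⟩, ?_⟩, ⟨⟨fun v => if v ∈ ({0, 1, 3} : Finset (Fin 12)) then 1
    else 0, fun v => by dsimp only; split_ifs <;> norm_num, feas zf, ?_⟩, ?_⟩,
    ⟨⟨{{1, 8, 11}, {3, 4, 10}}, ?_, ?_, by decide⟩, ?_⟩⟩
  · rintro k ⟨S, hS, rfl⟩
    have := lower (fun v => if v ∈ S then 1 else 0) (fun v => by split_ifs <;> norm_num) (feas hS)
    simp at this
    exact_mod_cast this
  · rw [Finset.sum_boole, Finset.filter_mem_eq_inter, Finset.univ_inter]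
    have : ({0, 1, 3} : Finset (Fin 12)).card = 3 := by decide
    rw [this]
    norm_num
  · rintro t ⟨x, h0, h, rfl⟩
    exact lower x h0 h
  · intro F hF
    simp only [Finset.mem_insert, Finset.mem_singleton] at hF
    rcases hF with rfl | rfl <;> decide +kernel
  · intro F hF F' hF' hne
    simp only [Finset.mem_insert, Finset.mem_singleton] at hF hF'
    rcases hF with rfl | rfl <;> rcases hF' with rfl | rfl
    · exact absurd rfl hne
    · rw [Finset.disjoint_left]; decide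
    · rw [Finset.disjoint_left]; decide
    · exact absurd rfl hne
  · rintro k ⟨C, hC, hd, rfl⟩
    by_contra hk
    obtain ⟨a, ha, b, hb, c, hc, hab, hac, hbc⟩ := Finset.two_lt_card.1 (not_le.1 hk)
    obtain ⟨A, hA, hA'⟩ := contains (hC a ha)
    obtain ⟨B, hB, hB'⟩ := contains (hC b hb)
    obtain ⟨D, hD, hD'⟩ := contains (hC c hc)
    rcases triple A hA B hB D hD with ⟨v, h1, h2⟩ | ⟨v, h1, h2⟩ | ⟨v, h1, h2⟩
    · exact Finset.disjoint_left.1 (hd a ha b hb hab) (hA' v h1) (hB' v h2)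
    · exact Finset.disjoint_left.1 (hd a ha c hc hac) (hA' v h1) (hD' v h2)
    · exact Finset.disjoint_left.1 (hd b hb c hc hbc) (hB' v h1) (hD' v h2)

end Pool.Agent.Results.MP_7d76f2_co.Counterexample
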